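import Mathlib
import Pool.Agent.H91.Selector

set_option autoImplicit false

namespace Pool.Agent.Results.MP_93dabc_an.NoSelector

open MeasureTheory

theorem result :
    ¬ ∀ (Ω : Type) [MeasurableSpace Ω] (μ : Measure Ω) [IsProbabilityMeasure μ] [μ.IsComplete]
      (X : Type) [NormedAddCommGroup X] [NormedSpace ℝ X] [CompleteSpace X] (F : Ω → Set X),
      (∀ t, (F t).Nonempty ∧ Convex ℝ (F t) ∧ IsClosed (F t) ∧ Bornology.IsBounded (F t)) →
      (∀ (φ : X →L[ℝ] ℝ) (a : ℝ), φ ≠ 0 → MeasurableSet {t | (F t ∩ {x | a < φ x}).Nonempty}) →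
      ∃ f : Ω → X, (∀ t, f t ∈ F t) ∧ ∀ φ : X →L[ℝ] ℝ, Measurable (fun t => φ (f t)) := by
  intro h
  open Pool.Agent.H91.Selector in
  obtain ⟨f, hf, hm⟩ := @h W (cc W) (mu W) (mu_prob W) (mu_complete W) (X W) _ _ _ F
    (fun t => ⟨F_nonempty t, F_convex t, F_closed t, F_bdd t⟩) (fun φ a _ => F_meas W_Iio _)
  obtain ⟨φ, hφ⟩ := Pool.Agent.H91.Selector.no_selector Pool.Agent.H91.Selector.W_Iio f hf
  exact hφ (hm φ)

end Pool.Agent.Results.MP_93dabc_an.NoSelector
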